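import Pool.Agent.TMX.Stmts

set_option autoImplicit false

/-! Row CC of squad TMX: concave pairs. -/

namespace Pool.Agent.TMX.H36

open Finset
open Pool.Agent.TMX

theorem sum_bot (f : ℕ → ℝ) (a e : ℕ) (h : a ≤ e) :
    ∑ i ∈ Icc a e, f i = f a + ∑ i ∈ Icc (a + 1) e, f i := by
  have h1 : Icc a e = insert a (Icc (a + 1) e) := by
    ext x
    rw [mem_insert, mem_Icc, mem_Icc]
    omega
  have h2 : a ∉ Icc (a + 1) e := by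
    rw [mem_Icc]
    omega
  rw [h1, sum_insert h2]

theorem sum_top (f : ℕ → ℝ) (a e : ℕ) (h : a ≤ e + 1) :
    ∑ i ∈ Icc a (e + 1), f i = f (e + 1) + ∑ i ∈ Icc a e, f i := by
  have h1 : Icc a (e + 1) = insert (e + 1) (Icc a e) := by
    ext x
    rw [mem_insert, mem_Icc, mem_Icc]
    omega
  have h2 : e + 1 ∉ Icc a e := by
    rw [mem_Icc]
    omega
  rw [h1, sum_insert h2]

theorem cc : CC := by
  intro N g s k l hkl hlN hup hdn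
  have key : ∀ d a₁ e₁ a₂ e₂ τ : ℕ, a₂ + e₂ ≤ a₁ + e₁ + d → a₁ ≤ k + 1 → a₂ ≤ k + 1 →
      l ≤ e₁ + 1 → l ≤ e₂ + 1 → e₁ ≤ N → e₂ ≤ N →
      0 ≤ ∑ i ∈ Icc a₁ e₁, (g i - s) → 0 ≤ ∑ i ∈ Icc a₂ e₂, (g i - s) →
      a₁ + e₁ ≤ τ → τ ≤ a₂ + e₂ →
      ∃ a e : ℕ, a ≤ k + 1 ∧ l ≤ e + 1 ∧ e ≤ N ∧ a + e = τ ∧ 0 ≤ ∑ i ∈ Icc a e, (g i - s) := by
    intro d
    induction d with
    | zero =>
      intro a₁ e₁ a₂ e₂ τ hd ha₁ ha₂ he₁ he₂ hN₁ hN₂ hF₁ hF₂ h1 h2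
      exact ⟨a₁, e₁, ha₁, he₁, hN₁, by omega, hF₁⟩
    | succ d ih =>
      intro a₁ e₁ a₂ e₂ τ hd ha₁ ha₂ he₁ he₂ hN₁ hN₂ hF₁ hF₂ h1 h2
      by_cases c1 : a₁ + e₁ = τ
      · exact ⟨a₁, e₁, ha₁, he₁, hN₁, c1, hF₁⟩
      by_cases c2 : a₂ + e₂ = τ
      · exact ⟨a₂, e₂, ha₂, he₂, hN₂, c2, hF₂⟩
      by_cases c3 : a₁ < a₂
      · obtain ⟨b, rfl⟩ : ∃ b, a₂ = b + 1 := ⟨a₂ - 1, by omega⟩
        have hg : g a₁ ≤ g b := hup a₁ b (Nat.zero_le _) (by omega) (by omega)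
        by_cases c4 : g a₁ ≤ s
        · have h3 := sum_bot (fun i => g i - s) a₁ e₁ (by omega)
          refine ih (a₁ + 1) e₁ (b + 1) e₂ τ (by omega) (by omega) ha₂ he₁ he₂ hN₁ hN₂ ?_ hF₂
            (by omega) h2
          linarith
        · have h3 := sum_bot (fun i => g i - s) b e₂ (by omega)
          refine ih a₁ e₁ b e₂ τ (by omega) ha₁ (by omega) he₁ he₂ hN₁ hN₂ hF₁ ?_ h1 (by omega)
          push Not at c4
          linarith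
      · have c5 : e₁ < e₂ := by omega
        obtain ⟨b, rfl⟩ : ∃ b, e₂ = b + 1 := ⟨e₂ - 1, by omega⟩
        have hg : g (b + 1) ≤ g (e₁ + 1) := hdn (e₁ + 1) (b + 1) (by omega) (by omega) hN₂
        by_cases c4 : s ≤ g (e₁ + 1)
        · have h3 := sum_top (fun i => g i - s) a₁ e₁ (by omega)
          refine ih a₁ (e₁ + 1) a₂ (b + 1) τ (by omega) ha₁ ha₂ (by omega) he₂ (by omega) hN₂ ?_
            hF₂ (by omega) h2
          linarith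
        · have h3 := sum_top (fun i => g i - s) a₂ b (by omega)
          refine ih a₁ e₁ a₂ b τ (by omega) ha₁ ha₂ he₁ (by omega) hN₁ (by omega) hF₁ ?_ h1
            (by omega)
          push Not at c4
          linarith
  intro a₁ e₁ a₂ e₂ τ ha₁ ha₂ he₁ he₂ hN₁ hN₂ hF₁ hF₂ h1 h2
  exact key (a₂ + e₂) a₁ e₁ a₂ e₂ τ (by omega) ha₁ ha₂ he₁ he₂ hN₁ hN₂ hF₁ hF₂ h1 h2

end Pool.Agent.TMX.H36
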